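import Pool.Agent.Y909.FV.Hilb

/-!
# A strict hierarchy of operator functions with indices `0` and `1`

For a decomposition `H = H₁ ⊕ H₂` into closed subspaces and an `L(H₁, H₂)`-valued function `V` put
`G_{k,V}(z) = [z⁻ᵏ, 0; V(z), z]`; for `k = 1` and constant `V` this is `F_V`. On every
infinite-dimensional complex Hilbert space `H` we construct a decomposition `H = H₁ ⊕ H₂` and
functions `Aₙ = G_{n,Vₙ}`, `n = 1, 2, …`, `Vₙ(z) = W₀ + z⁻¹ W₁ + ⋯ + z⁻⁽ⁿ⁻¹⁾ Wₙ₋₁`, such that every
`Aₙ` has exactly the indices `0` and `1`, both of infinite dimension, with `M₁(z) = S` one and the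
same subspace for all `n` and all `z`, while `Aₙ` is not equivalent to any `G_{k,V}` with `k < n`,
for any decomposition `H = H₁' ⊕ H₂'` and any continuous `V`. In particular the `Aₙ` are pairwise
inequivalent, and `A₂, A₃, …` are not equivalent to any `F_V`.

Proof of the inequivalence. If `e ∈ H₁` is a unit vector with all `Wⱼ e` small, then `Aₙ` has
`0`-sections `φ⁰, φⁿ` with `φ₊⁰ = e` and `φ₊ⁿ` close to `zⁿ e`. An equivalence would carry them to
`0`-sections `ψ⁰, ψⁿ` of `G_{k,V}`, with `zⁿ ψ⁰ - ψⁿ` small on the circle. The first component of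
`ψ₊ⁿ` is a polynomial of degree at most `k < n`; this forces the first component of `ψ₊⁰` to be
small, then also its second component at `0`, which is a mean value over the circle. Hence
`φ₊⁰(0) = e` would be small.
-/

open Set Metric
open Pool.Agent.Y909.FV

namespace Pool.Agent.Results.MP_d272b1_an.StrictHierarchy

/-- **A strict hierarchy.** On every infinite-dimensional complex Hilbert space `H` there are a
decomposition `H = H₁ ⊕ H₂` into closed subspaces, operators `W n j ∈ L(H₁, H₂)` (`j < n`) and a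
subspace `S` such that for every `n ≥ 1` the function
`Aₙ(z) = [z⁻ⁿ, 0; Σⱼ z⁻ʲ W n j, z]` is holomorphic and invertible near the unit circle, has exactly
the indices `0` and `1`, both of infinite dimension, and `M₁(z) = S` for every `z`, but
* `Aₙ` is not equivalent to any `[z⁻ᵏ, 0; V(z), z]` with `k < n` (for any decomposition of `H` into
  closed subspaces and any continuous `V`), in particular, for `n ≥ 2`, to no `F_V`;
* more generally `Aₙ` is not equivalent to any `[D(z), 0; V(z), z]` for which `z¹⁻ⁿ D(z)⁻¹` extends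
  holomorphically to `1 ≤ |z| ≤ ∞`;
* `Aₙ` is not equivalent to `Aₘ` for `m ≠ n`. -/
theorem result {H : Type*} [NormedAddCommGroup H] [InnerProductSpace ℂ H] [CompleteSpace H]
    (hH : ¬ FiniteDimensional ℂ H) :
    ∃ (d : Dec H) (W : ∀ n : ℕ, Fin n → (d.H₁ →L[ℂ] d.H₂)) (S : Submodule ℂ H),
      ∀ n : ℕ, 1 ≤ n →
        HolGL (sphere 0 1) (G d n (Vn d (W n))) ∧
        HasIndicesZeroOne (G d n (Vn d (W n))) ∧
        (∀ z : OnePoint ℂ, MSet (G d n (Vn d (W n))) 0 z = S) ∧
        (∀ (d' : Dec H) (k : ℤ) (V : ℂ → d'.H₁ →L[ℂ] d'.H₂), k < n →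
          ContinuousOn V (sphere 0 1) → ¬ Equivalent (G d n (Vn d (W n))) (G d' k V)) ∧
        (∀ (d' : Dec H) (D B : ℂ → d'.H₁ →L[ℂ] d'.H₁) (V : ℂ → d'.H₁ →L[ℂ] d'.H₂),
          ContinuousOn V (sphere 0 1) → HolOn (closedBall 0 1) B →
          (∀ z : ℂ, ‖z‖ = 1 → ∀ x : d'.H₁, z ^ n • B z⁻¹ (D z x) = z • x) →
          ¬ Equivalent (G d n (Vn d (W n))) (fun z => block d' (D z) (V z) z)) ∧
        (∀ m : ℕ, 1 ≤ m → m ≠ n →
          ¬ Equivalent (G d n (Vn d (W n))) (G d m (Vn d (W m)))) := by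
  obtain ⟨e, he⟩ := exists_orthonormal_seq hH
  have hcont : ∀ n : ℕ, ContinuousOn (Vn (dd he) (Wn he n)) (sphere 0 1) := by
    intro n
    unfold Vn
    refine continuousOn_finsetSum _ (fun j _ => ?_)
    have h1 : ContinuousOn (fun z : ℂ => z⁻¹ ^ (j : ℕ)) (sphere 0 1) := by
      refine ContinuousOn.pow (continuousOn_inv₀.mono ?_) _
      intro z hz
      exact ne_zero_of_norm_one (by simpa using hz)
    exact h1.smul (continuousOn_const (c := Wn he n j))
  have hch := fun n : ℕ => chains_G (dd he) (Wn_small he n)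
  refine ⟨dd he, Wn he, plus (dd he) (RW (dd he) (Wn he 1)), ?_⟩
  intro n hn
  refine ⟨holGL_G _ _, indices_G _ (Wn_inj he n) (H₁_not_fd he) (quot_not_fd he n), ?_, ?_, ?_, ?_⟩
  · intro z
    rw [mset_G _ (Wn_inj he n) z, RW_eq he hn]
  · intro d' k V hk hV
    exact not_equivalent_G (hch n) d' k hk V hV
  · intro d' D B V hV hB hDB
    exact not_equivalent_block d' one_pos (hch n) D B V hV hB hDB
  · intro m hm hmn hE
    rcases lt_or_gt_of_ne hmn with h | h
    · exact not_equivalent_G (hch n) (dd he) m (by exact_mod_cast h) _ (hcont m) hE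
    · exact not_equivalent_G (hch m) (dd he) n (by exact_mod_cast h) _ (hcont n) hE.symm

end Pool.Agent.Results.MP_d272b1_an.StrictHierarchy
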